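import Pool.Agent.W394.BQN.Stm2

set_option autoImplicit false

open Polynomial

noncomputable section

namespace Pool.Agent.W405.BQN

open BQ Pool.Agent.W394.BQN

theorem finite_maximals (V W : Type) [CommRing V] [IsLocalRing V] [CommRing W] [Algebra V W]
    [Module.Finite V W] : {I : Ideal W | I.IsMaximal}.Finite := by
  refine (Algebra.QuasiFinite.finite_primesOver (R := V) (S := W)
    (IsLocalRing.maximalIdeal V)).subset ?_
  intro M hM
  have hM' : M.IsMaximal := hM
  have h1 : (M.comap (algebraMap V W)).IsMaximal :=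
    Ideal.isMaximal_comap_of_isIntegral_of_isMaximal M
  exact ⟨hM'.isPrime, ⟨(IsLocalRing.eq_maximalIdeal h1).symm⟩⟩

theorem t_DVR (h1 : S_SEM) (h2 : S_TOW) : S_DVR := by
  intro V _ _ _ _ u hu hW n
  have : Module.Finite V (V[X] ⧸ Ideal.span {u}) := hu.finite_quotient
  have hfin := finite_maximals V (V[X] ⧸ Ideal.span {u})
  have : Finite (MaximalSpectrum (V[X] ⧸ Ideal.span {u})) := by
    have : Finite {I : Ideal (V[X] ⧸ Ideal.span {u}) | I.IsMaximal} := hfin
    exact Finite.of_injective (fun m : MaximalSpectrum (V[X] ⧸ Ideal.span {u}) =>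
      (⟨m.asIdeal, m.isMaximal⟩ : {I : Ideal (V[X] ⧸ Ideal.span {u}) | I.IsMaximal}))
      (fun a b h => MaximalSpectrum.ext (congrArg Subtype.val h))
  have : IsPrincipalIdealRing (V[X] ⧸ Ideal.span {u}) :=
    IsPrincipalIdealRing.of_finite_maximals hfin
  refine h2 V u hu.ne_zero (V[X] ⧸ Ideal.span {u}) (h1 _)
    (algebraMap V (V[X] ⧸ Ideal.span {u})) ?_ (Ideal.Quotient.mk _) Ideal.Quotient.mk_surjective
    ?_ ?_ n
  · rw [RingHom.finite_algebraMap]
    infer_instance
  · intro c
    rw [Ideal.Quotient.eq_zero_iff_mem, Ideal.mem_span_singleton]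
  · intro v
    rfl

end Pool.Agent.W405.BQN
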